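import Pool.Agent.Q211.PA.Sys

/-!
# Names of the generic sets, and packages
-/

set_option autoImplicit false
set_option linter.unusedSectionVars false
set_option linter.unreachableTactic false
set_option linter.unusedTactic false

namespace Pool.Agent.Q211.PA

open Pool.Agent.W868 Pool.Agent.W868.PName Pool.Agent.Q211.SY Pool.Agent.Q211.FS
open ZFSet (pair)

variable {X : Type} {Γ : Type} [Group Γ] [MulAction Γ X] {N : NFil Γ}

open Classical in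
/-- Changing the interval of one column. -/
noncomputable def uX (q : PX X) (c : X × ℕ) (I : RI) : PX X := upd q c.1 c.2 (I : WithTop RI)

theorem uX_self (q : PX X) (c : X × ℕ) (I : RI) : (uX q c I).1 c.1 c.2 = I := by
  classical
  unfold uX
  exact upd_self _ _ _ _

theorem uX_ne (q : PX X) {c d : X × ℕ} (I : RI) (h : d ≠ c) :
    (uX q c I).1 d.1 d.2 = q.1 d.1 d.2 := by
  classical
  unfold uX
  exact upd_ne _ _ _ _ fun h' => h (Prod.ext h'.1 h'.2)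

theorem uX_le {q : PX X} {c : X × ℕ} {I : RI} (h : (I : WithTop RI) ≤ q.1 c.1 c.2) :
    uX q c I ≤ q := by
  classical
  unfold uX
  exact upd_le h

/-- The name of the set of codes of rational numbers below the Cohen real of the column `c`. -/
noncomputable def CnX (c : X × ℕ) : PName (PX X) :=
  PName.mk {t : RI × (ℕ × ℕ × ℕ) // qv t.2 ≤ t.1.a} (fun t => check (qc t.1.2))
    (fun t => uX ⊤ c t.1.1)

theorem le_uX_top {c : X × ℕ} {I : RI} {p : PX X} : p ≤ uX ⊤ c I ↔ p.1 c.1 c.2 ≤ I := by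
  constructor
  · intro h
    have h1 := h c.1 c.2
    rwa [uX_self] at h1
  · intro h x i
    by_cases h2 : (x, i) = c
    · subst h2
      rwa [uX_self]
    · rw [uX_ne (d := (x, i)) _ _ h2]
      exact le_top

theorem sx_uX (τ : Equiv.Perm (X × ℕ)) (c : X × ℕ) (I : RI) :
    sx τ (uX ⊤ c I) = uX (⊤ : PX X) (τ c) I := by
  refine FP.ext' fun x i => ?_
  by_cases h : (x, i) = τ c
  · have h1 := sx_at τ (uX ⊤ c I) c
    have h2 := uX_self (⊤ : PX X) (τ c) I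
    have h3 := uX_self (⊤ : PX X) c I
    rw [← h] at h1 h2 ⊢
    exact h1.trans (h3.trans h2.symm)
  · have h1 : τ⁻¹ (x, i) ≠ c := by
      intro h2
      exact h (by rw [← h2, perm_self_inv])
    rw [sx_app, uX_ne _ _ h1, uX_ne (d := (x, i)) _ _ h]
    rfl

theorem ax_CnX (τ : Equiv.Perm (X × ℕ)) (c : X × ℕ) :
    act (acX τ) (CnX c) = CnX (τ c) := by
  unfold CnX
  rw [act]
  congr 1
  · funext t
    exact act_check (acX_top τ) _
  · funext t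
    exact sx_uX _ _ _

theorem fx_CnX (c : X × ℕ) (H : Subgroup Γ) : FxX H {c} (CnX c) := by
  intro g _ hg
  unfold axg
  rw [ax_CnX, hg c (Finset.mem_singleton_self _)]
  exact Eqv.refl _

/-- The normal filter contains a subgroup of the stabilizer of every point. -/
def NFil.Pt (N : NFil Γ) (X : Type) [MulAction Γ X] : Prop :=
  ∀ x : X, ∃ H ∈ N.F, ∀ g ∈ H, g • x = x

theorem hs_CnX (c : X × ℕ) : (SX X N).HS (CnX c) := by
  obtain ⟨H, hH⟩ := N.ne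
  refine (SX X N).hs_iff.2 ⟨sym_iffX.2 ⟨H, hH, _, fx_CnX c H⟩, fun z d hz => ?_⟩
  obtain ⟨t, rfl, rfl⟩ := hz
  exact (SX X N).hs_check _

/-! ### Families of names -/

/-- The name of the set of the values of a family of names. -/
def mkN (ι : Type) (f : ι → PName (PX X)) : PName (PX X) := PName.mk ι f fun _ => ⊤

theorem el_mkN {ι : Type} {f : ι → PName (PX X)} {z : PName (PX X)} {c : PX X} :
    El (mkN ι f) z c ↔ ∃ i, z = f i ∧ c = ⊤ := by
  rw [mkN, el_mk]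
  constructor
  · rintro ⟨i, rfl, rfl⟩
    exact ⟨i, rfl, rfl⟩
  · rintro ⟨i, rfl, rfl⟩
    exact ⟨i, rfl, rfl⟩

theorem act_mkN (τ : Equiv.Perm (X × ℕ)) (ι : Type) (f : ι → PName (PX X)) :
    act (acX τ) (mkN ι f) = mkN ι fun i => act (acX τ) (f i) := by
  unfold mkN
  rw [act]
  congr 1

theorem eqv_mkN {ι κ : Type} {f : ι → PName (PX X)} {h : κ → PName (PX X)}
    (h1 : ∀ i, ∃ j, Eqv (f i) (h j)) (h2 : ∀ j, ∃ i, Eqv (f i) (h j)) :
    Eqv (mkN ι f) (mkN κ h) := by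
  intro p
  rw [feq_iff']
  constructor
  · intro a c ha q hq hqc
    obtain ⟨i, rfl, rfl⟩ := el_mkN.1 ha
    obtain ⟨j, hj⟩ := h1 i
    exact ⟨q, le_rfl, h j, ⊤, el_mkN.2 ⟨j, rfl, rfl⟩, le_top, hj q⟩
  · intro a c ha q hq hqc
    obtain ⟨j, rfl, rfl⟩ := el_mkN.1 ha
    obtain ⟨i, hi⟩ := h2 j
    exact ⟨q, le_rfl, f i, ⊤, el_mkN.2 ⟨i, rfl, rfl⟩, le_top, hi q⟩

/-- Families of names that are permuted by an automorphism. -/
theorem eqv_mkN_perm {ι : Type} {f : ι → PName (PX X)} (g : GG X Γ) (σ : Equiv.Perm ι)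
    (h : ∀ i, Eqv (axg g (f i)) (f (σ i))) : Eqv (axg g (mkN ι f)) (mkN ι f) := by
  unfold axg
  rw [act_mkN]
  refine eqv_mkN (fun i => ⟨σ i, h i⟩) fun j => ⟨σ.symm j, ?_⟩
  have h1 := h (σ.symm j)
  rwa [Equiv.apply_symm_apply] at h1

theorem fx_mkN {ι : Type} {f : ι → PName (PX X)} {H : Subgroup Γ} {e : Finset (X × ℕ)}
    (h : ∀ g : GG X Γ, g.1.1 ∈ H → (∀ c ∈ e, g.1.2 c = c) →
      ∃ σ : Equiv.Perm ι, ∀ i, Eqv (axg g (f i)) (f (σ i))) : FxX H e (mkN ι f) := by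
  intro g hg he
  obtain ⟨σ, hσ⟩ := h g hg he
  exact eqv_mkN_perm g σ hσ

theorem hs_mkN {ι : Type} {f : ι → PName (PX X)} {H : Subgroup Γ} (hH : H ∈ N.F)
    {e : Finset (X × ℕ)} (h : FxX H e (mkN ι f)) (hf : ∀ i, (SX X N).HS (f i)) :
    (SX X N).HS (mkN ι f) := by
  refine (SX X N).hs_iff.2 ⟨sym_iffX.2 ⟨H, hH, e, h⟩, fun z c hz => ?_⟩
  obtain ⟨i, rfl, -⟩ := el_mkN.1 hz
  exact hf i

theorem mem_mkN {π : Pkg (PX X)} {ι : Type} {f : ι → PName (PX X)} {z : ZFSet.{0}} :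
    z ∈ π.val (mkN ι f) ↔ ∃ i, f i ∈ π.N ∧ z = π.val (f i) := by
  rw [π.mem_val]
  constructor
  · rintro ⟨y, hy, c, hc, -, rfl⟩
    obtain ⟨i, rfl, -⟩ := el_mkN.1 hc
    exact ⟨i, hy, rfl⟩
  · rintro ⟨i, hi, rfl⟩
    exact ⟨f i, hi, ⊤, el_mkN.2 ⟨i, rfl, rfl⟩, ⟨0, le_top⟩, rfl⟩

/-! ### The points -/

/-- The name of the set that represents the point `x`. -/
noncomputable def An (x : X) : PName (PX X) := mkN ℕ fun i => CnX (x, i)

theorem ax_An (g : GG X Γ) (x : X) : Eqv (axg g (An x)) (An (g.1.1 • x)) := by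
  unfold axg An
  rw [act_mkN]
  refine eqv_mkN (fun i => ⟨(g.1.2 (x, i)).2, ?_⟩) fun j => ?_
  · rw [ax_CnX]
    have h : g.1.2 (x, i) = (g.1.1 • x, (g.1.2 (x, i)).2) := Prod.ext (gg_fst g _) rfl
    rw [← h]
    exact Eqv.refl _
  · have h1 : (g.1.2⁻¹ (g.1.1 • x, j)).1 = x := by
      have h2 := gg_fst g (g.1.2⁻¹ (g.1.1 • x, j))
      rw [perm_self_inv] at h2
      exact (smul_left_cancel _ h2).symm
    refine ⟨(g.1.2⁻¹ (g.1.1 • x, j)).2, ?_⟩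
    rw [ax_CnX]
    have h2 : (x, (g.1.2⁻¹ (g.1.1 • x, j)).2) = g.1.2⁻¹ (g.1.1 • x, j) := Prod.ext h1.symm rfl
    rw [h2, perm_self_inv]
    exact Eqv.refl _

theorem fx_An {x : X} {H : Subgroup Γ} (h : ∀ g ∈ H, g • x = x) (e : Finset (X × ℕ)) :
    FxX H e (An x) := by
  intro g hg _
  have h1 := ax_An g x
  rwa [h _ hg] at h1

theorem fxC_An (x : X) (e : Finset (X × ℕ)) : FxC Γ e (An x) := by
  intro σ _
  have h1 := ax_An (emb Γ σ) x
  have h2 : (emb Γ σ).1.1 • x = x := one_smul Γ x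
  rwa [h2] at h1

theorem hs_An (hN : N.Pt X) (x : X) : (SX X N).HS (An x) := by
  obtain ⟨H, hH, h⟩ := hN x
  exact hs_mkN hH (fx_An h ∅) fun i => hs_CnX _

theorem fx_check (z : ZFSet.{0}) (H : Subgroup Γ) (e : Finset (X × ℕ)) :
    FxX H e (check z) := by
  intro g _ _
  unfold axg
  rw [act_check (acX_top _)]
  exact Eqv.refl _

theorem ax_check (g : GG X Γ) (z : ZFSet.{0}) : axg g (check z) = check z :=
  act_check (acX_top _) _

theorem ax_opN (g : GG X Γ) (x y : PName (PX X)) :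
    axg g (opN x y) = opN (axg g x) (axg g y) := act_opN (acX_top _) _ _

theorem fxC_check (z : ZFSet.{0}) (e : Finset (X × ℕ)) : FxC Γ e (check z) :=
  (fx_check z (⊤ : Subgroup Γ) e).fxC

/-! ### Genericity -/

/-- The names and ground model sets that we need for genericity. -/
def DX (c : X × ℕ) (y : ℝ) : Set (PX X) :=
  {r | ∃ I : RI, r.1 c.1 c.2 = I ∧ (y < I.a ∨ (I.b : ℝ) < y)}

/-- Conditions that separate two columns. -/
def DN (c d : X × ℕ) : Set (PX X) :=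
  {r | ∃ I J : RI, r.1 c.1 c.2 = I ∧ r.1 d.1 d.2 = J ∧ (I.b ≤ J.a ∨ J.b ≤ I.a)}

theorem DX_dense (c : X × ℕ) (y : ℝ) (q : PX X) : ∃ r ≤ q, r ∈ DX c y := by
  rcases h : q.1 c.1 c.2 with _ | I
  · obtain ⟨I, h1, h2⟩ := exists_RI (show y < y + 1 by linarith)
    exact ⟨uX q c I, uX_le (by rw [h]; exact le_top), I, uX_self _ _ _, Or.inl h1⟩
  · rcases lt_or_ge y I.b with hy | hy
    · obtain ⟨J, h1, h2⟩ := exists_RI (show max y I.a < I.b from
        max_lt hy (by exact_mod_cast I.h))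
      refine ⟨uX q c J, uX_le ?_, J, uX_self _ _ _, Or.inl ((le_max_left _ _).trans_lt h1)⟩
      rw [h]
      refine WithTop.coe_le_coe.2 ⟨?_, ?_⟩
      · have h3 := (le_max_right y (I.a : ℝ)).trans_lt h1
        exact_mod_cast h3.le
      · exact_mod_cast h2.le
    · obtain ⟨J, h1, h2⟩ := exists_RI (show (I.a : ℝ) < I.b by exact_mod_cast I.h)
      refine ⟨uX q c J, uX_le ?_, J, uX_self _ _ _, Or.inr (h2.trans_le hy)⟩
      rw [h]
      exact WithTop.coe_le_coe.2 ⟨by exact_mod_cast h1.le, by exact_mod_cast h2.le⟩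

theorem exists_coe (q : PX X) (c : X × ℕ) : ∃ r ≤ q, ∃ I : RI, r.1 c.1 c.2 = I := by
  obtain ⟨r, hr, I, hI, -⟩ := DX_dense c 0 q
  exact ⟨r, hr, I, hI⟩

theorem DN_dense {c d : X × ℕ} (hcd : c ≠ d) (q : PX X) : ∃ r ≤ q, r ∈ DN c d := by
  obtain ⟨q1, hq1, I, hI⟩ := exists_coe q c
  obtain ⟨q2, hq2, J, hJ⟩ := exists_coe q1 d
  have h1 := hq2 c.1 c.2
  rw [hI] at h1
  obtain ⟨I', hI', -⟩ := le_coe h1
  have hab : (I'.a : ℝ) < I'.b := by exact_mod_cast I'.h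
  have hab' : (J.a : ℝ) < J.b := by exact_mod_cast J.h
  -- a separating number
  obtain ⟨I2, J2, h2, h3, h4⟩ : ∃ I2 J2 : RI, I2 ≤ I' ∧ J2 ≤ J ∧ (I2.b ≤ J2.a ∨ J2.b ≤ I2.a) := by
    rcases lt_or_ge (I'.a : ℝ) J.b with h5 | h5
    · -- `I'.a < J.b`: take `I2` near `I'.a` and `J2` near `J.b`
      obtain ⟨m, h6, h7⟩ := exists_rat_btwn h5
      obtain ⟨I2, h8, h9⟩ := exists_RI (show (I'.a : ℝ) < min (I'.b : ℝ) (m : ℝ) from
        lt_min hab h6)
      obtain ⟨J2, h10, h11⟩ := exists_RI (show max (J.a : ℝ) (m : ℝ) < J.b from max_lt hab' h7)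
      refine ⟨I2, J2, ⟨by exact_mod_cast h8.le, ?_⟩, ⟨?_, by exact_mod_cast h11.le⟩, Or.inl ?_⟩
      · exact_mod_cast (h9.trans_le (min_le_left _ _)).le
      · have h12 := (le_max_left (J.a : ℝ) m).trans_lt h10
        exact_mod_cast h12.le
      · have h12 := (le_max_right (J.a : ℝ) m).trans_lt h10
        have h13 := h9.trans_le (min_le_right _ _)
        exact_mod_cast (h13.trans h12).le
    · exact ⟨I', J, le_rfl, le_rfl, Or.inr (by exact_mod_cast h5)⟩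
  have h5 : uX q2 d J2 ≤ q2 := uX_le (by rw [hJ]; exact WithTop.coe_le_coe.2 h3)
  have h6 : (uX q2 d J2).1 c.1 c.2 = I' := by rw [uX_ne _ _ hcd, hI']
  refine ⟨uX (uX q2 d J2) c I2, ((uX_le (by rw [h6]; exact WithTop.coe_le_coe.2 h2)).trans
    h5).trans (hq2.trans hq1), I2, J2, uX_self _ _ _, ?_, h4⟩
  rw [uX_ne _ _ (Ne.symm hcd), uX_self]

variable (X) in
/-- The packages. -/
structure IsPX (N : NFil Γ) (A : Set (PName (PX X))) (π : Pkg (PX X)) : Prop where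
  cl : (SX X N).Cld π
  cn : ∀ c, CnX c ∈ π.N
  an : ∀ x, An x ∈ π.N
  dq : ∀ c (y : ℚ), Sys.nm (PX X) (DX c y) ∈ π.N
  dn : ∀ c d, Sys.nm (PX X) (DN c d) ∈ π.N
  qc : Qc ∈ π.Z
  lq : LQ ∈ π.Z
  sub : A ⊆ π.N

theorem exists_PX [Countable X] (N : NFil Γ) (A : Set (PName (PX X))) (hA : A.Countable) :
    ∃ π, IsPX X N A π := by
  obtain ⟨π, h1, -, h3, -⟩ := Sys.exists_cld (SX X N)
    (A ∪ ({check Qc, check LQ} ∪ (Set.range CnX ∪ (Set.range An ∪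
      ((Set.range fun t : (X × ℕ) × ℚ => Sys.nm (PX X) (DX t.1 t.2)) ∪
      Set.range fun t : (X × ℕ) × (X × ℕ) => Sys.nm (PX X) (DN t.1 t.2))))))
    (hA.union ((Set.toFinite _).countable.union ((Set.countable_range _).union
      ((Set.countable_range _).union ((Set.countable_range _).union (Set.countable_range _))))))
    ∅ Set.countable_empty ⊤
  exact ⟨π, ⟨h3, fun c => h1 (Or.inr (Or.inr (Or.inl ⟨c, rfl⟩))),
    fun x => h1 (Or.inr (Or.inr (Or.inr (Or.inl ⟨x, rfl⟩)))),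
    fun c y => h1 (Or.inr (Or.inr (Or.inr (Or.inr (Or.inl ⟨(c, y), rfl⟩))))),
    fun c d => h1 (Or.inr (Or.inr (Or.inr (Or.inr (Or.inr ⟨(c, d), rfl⟩))))),
    h1 (Or.inr (Or.inl (by simp))), h1 (Or.inr (Or.inl (by simp))), fun x hx => h1 (Or.inl hx)⟩⟩

/-- The interval `I` contains the Cohen real of the column `c`. -/
def InX (π : Pkg (PX X)) (c : X × ℕ) (I : RI) : Prop := ∃ j, (π.g j).1 c.1 c.2 = I

theorem InX.chain {π : Pkg (PX X)} {c : X × ℕ} {I J : RI} (hI : InX π c I) (hJ : InX π c J) :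
    ∃ L, InX π c L ∧ L ≤ I ∧ L ≤ J := by
  obtain ⟨j, hj⟩ := hI
  obtain ⟨k, hk⟩ := hJ
  have h1 := (π.g_le_left j k) c.1 c.2
  have h2 := (π.g_le_right j k) c.1 c.2
  rw [hj] at h1
  rw [hk] at h2
  obtain ⟨L, h, h3⟩ := le_coe h1
  rw [h] at h2
  exact ⟨L, ⟨_, h⟩, h3, WithTop.coe_le_coe.1 h2⟩

theorem InX.lt {π : Pkg (PX X)} {c : X × ℕ} {I J : RI} (hI : InX π c I) (hJ : InX π c J) :
    I.a < J.b := by
  obtain ⟨L, -, h1, h2⟩ := hI.chain hJ
  exact h1.1.trans_lt (L.h.trans_le h2.2)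

/-- The Cohen real. -/
noncomputable def cX (π : Pkg (PX X)) (c : X × ℕ) : ℝ := sSup {x : ℝ | ∃ I, InX π c I ∧ x = I.a}

namespace IsPX

variable {A : Set (PName (PX X))} {π : Pkg (PX X)} (h : IsPX X N A π)

include h

theorem isZF : IsZF ((SX X N).Ms π) := T_ZF.isZF h.cl

theorem countable : ((SX X N).Ms π).Countable := (π.cnt.mono fun _ hx => hx.1).image _

theorem exists_InX (c : X × ℕ) (y : ℚ) : ∃ I, InX π c I ∧ ((y : ℝ) < I.a ∨ (I.b : ℝ) < y) := by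
  obtain ⟨k, -, r, ⟨I, hI, h1⟩, hr⟩ := gen_dense π (h.dq c y) (m := 0)
    fun q _ => DX_dense c y q
  have h2 := hr c.1 c.2
  rw [hI] at h2
  obtain ⟨J, h3, h4⟩ := le_coe h2
  refine ⟨J, ⟨k, h3⟩, ?_⟩
  rcases h1 with h1 | h1
  · exact Or.inl (h1.trans_le (by exact_mod_cast h4.1))
  · exact Or.inr (lt_of_le_of_lt (by exact_mod_cast h4.2) h1)

theorem cX_mem {c : X × ℕ} {I : RI} (hI : InX π c I) : (I.a : ℝ) < cX π c ∧ cX π c < I.b := by
  have hne : {x : ℝ | ∃ I, InX π c I ∧ x = I.a}.Nonempty := ⟨_, I, hI, rfl⟩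
  have hb : ∀ J, InX π c J → ∀ x ∈ {x : ℝ | ∃ I, InX π c I ∧ x = I.a}, x ≤ J.b := by
    rintro J hJ _ ⟨L, hL, rfl⟩
    exact_mod_cast (hL.lt hJ).le
  have hbd : BddAbove {x : ℝ | ∃ I, InX π c I ∧ x = I.a} := ⟨_, hb I hI⟩
  constructor
  · obtain ⟨J, hJ, h1⟩ := h.exists_InX c I.a
    rcases h1 with h1 | h1
    · exact h1.trans_le (le_csSup hbd ⟨J, hJ, rfl⟩)
    · have h2 := hI.lt hJ
      have h3 : J.b < I.a := by exact_mod_cast h1
      exact absurd h2 (not_lt.2 h3.le)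
  · obtain ⟨J, hJ, h1⟩ := h.exists_InX c I.b
    rcases h1 with h1 | h1
    · have h2 := hJ.lt hI
      have h3 : I.b < J.a := by exact_mod_cast h1
      exact absurd h2 (not_lt.2 h3.le)
    · exact lt_of_le_of_lt (csSup_le hne (hb J hJ)) h1

theorem cX_injective : Function.Injective (cX π) := by
  intro c d hcd
  by_contra hne
  obtain ⟨k, -, r, ⟨I, J, hI, hJ, h1⟩, hr⟩ := gen_dense π (h.dn c d) (m := 0)
    fun q _ => DN_dense hne q
  have h2 := hr c.1 c.2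
  have h3 := hr d.1 d.2
  rw [hI] at h2
  rw [hJ] at h3
  obtain ⟨I', h4, h5⟩ := le_coe h2
  obtain ⟨J', h6, h7⟩ := le_coe h3
  obtain ⟨h8, h9⟩ := h.cX_mem (I := I') (c := c) ⟨k, h4⟩
  obtain ⟨h10, h11⟩ := h.cX_mem (I := J') (c := d) ⟨k, h6⟩
  have e1 : (I.a : ℝ) ≤ I'.a := by exact_mod_cast h5.1
  have e2 : (I'.b : ℝ) ≤ I.b := by exact_mod_cast h5.2
  have e3 : (J.a : ℝ) ≤ J'.a := by exact_mod_cast h7.1
  have e4 : (J'.b : ℝ) ≤ J.b := by exact_mod_cast h7.2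
  rcases h1 with h1 | h1
  · have e5 : (I.b : ℝ) ≤ J.a := by exact_mod_cast h1
    linarith
  · have e5 : (J.b : ℝ) ≤ I.a := by exact_mod_cast h1
    linarith

theorem val_CnX (c : X × ℕ) : π.val (CnX c) = cutS (cX π c) := by
  ext z
  rw [π.mem_val, mem_cutS]
  constructor
  · rintro ⟨w, hw, d, ⟨⟨⟨I, t⟩, ht⟩, rfl, rfl⟩, ⟨j, hj⟩, rfl⟩
    have h1 : (π.g j).1 c.1 c.2 ≤ I := le_uX_top.1 hj
    obtain ⟨J, h2, h3⟩ := le_coe h1
    have h4 := (h.cX_mem (I := J) (c := c) ⟨j, h2⟩).1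
    refine ⟨t, ?_, (qc_Z π t).2⟩
    have h5 : (I.a : ℝ) ≤ J.a := by exact_mod_cast h3.1
    have h6 : qv t ≤ I.a := ht
    linarith
  · rintro ⟨t, ht, rfl⟩
    have hne : {x : ℝ | ∃ I, InX π c I ∧ x = I.a}.Nonempty := by
      obtain ⟨I, hI, -⟩ := h.exists_InX c 0
      exact ⟨_, I, hI, rfl⟩
    obtain ⟨_, ⟨I, ⟨j, hj⟩, rfl⟩, h1⟩ := exists_lt_of_lt_csSup hne ht
    exact ⟨check (FS.qc t), (qc_Z π t).1, _, ⟨⟨(I, t), h1.le⟩, rfl, rfl⟩,
      ⟨j, le_uX_top.2 hj.le⟩, (qc_Z π t).2⟩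

theorem mem_An {x : X} {z : ZFSet.{0}} : z ∈ π.val (An x) ↔ ∃ i, z = cutS (cX π (x, i)) := by
  unfold An
  rw [mem_mkN]
  constructor
  · rintro ⟨i, -, rfl⟩
    exact ⟨i, h.val_CnX _⟩
  · rintro ⟨i, rfl⟩
    exact ⟨i, h.cn _, (h.val_CnX _).symm⟩

/-- Different points are represented by different sets. -/
theorem An_injective {x y : X} (hxy : π.val (An x) = π.val (An y)) : x = y := by
  have h1 : cutS (cX π (x, 0)) ∈ π.val (An x) := h.mem_An.2 ⟨0, rfl⟩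
  rw [hxy, h.mem_An] at h1
  obtain ⟨j, hj⟩ := h1
  exact (Prod.ext_iff.1 (h.cX_injective (cutS_injective hj))).1

theorem An_ne_empty (x : X) : π.val (An x) ≠ ∅ := by
  intro h1
  have h2 : cutS (cX π (x, 0)) ∈ π.val (An x) := h.mem_An.2 ⟨0, rfl⟩
  rw [h1] at h2
  exact ZFSet.notMem_empty _ h2

theorem Qc_mem : Qc ∈ (SX X N).Ms π := by
  rw [← hat_Qc π]
  exact Sys.mem_Ms h.qc ((SX X N).hs_check _)

theorem LQ_mem : LQ ∈ (SX X N).Ms π := by
  rw [← hat_LQ π]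
  exact Sys.mem_Ms h.lq ((SX X N).hs_check _)

theorem An_mem (hN : N.Pt X) (x : X) : π.val (An x) ∈ (SX X N).Ms π :=
  Sys.mem_Ms (h.an x) (hs_An hN x)

end IsPX

end Pool.Agent.Q211.PA
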