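import Pool.Agent.Q211.FS.Coh

/-!
# Symmetric models of permutation type

Let `X` be a set with an action of a group `Γ`. For every element `x` of `X` we add an infinite set
of mutually generic real numbers, one for each column `(x, i)`. The automorphisms are the pairs of
an element `γ` of `Γ` and a permutation of the columns that maps the columns of `x` to the columns
of `γ x`. A normal filter of subgroups of `Γ` gives a symmetric model.
-/

set_option autoImplicit false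
set_option linter.unusedSectionVars false

namespace Pool.Agent.Q211.PA

open Pool.Agent.W868 Pool.Agent.W868.PName Pool.Agent.Q211.SY Pool.Agent.Q211.FS
open ZFSet (pair)

variable {X : Type}

theorem perm_inv_self {α : Type*} (τ : Equiv.Perm α) (x : α) : τ⁻¹ (τ x) = x := by simp

theorem perm_self_inv {α : Type*} (τ : Equiv.Perm α) (x : α) : τ (τ⁻¹ x) = x := by simp

/-- The notion of forcing for one column. -/
abbrev QX (X : Type) : X → Type := fun _ => WithTop RI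

/-- The conditions. -/
abbrev PX (X : Type) : Type := FP (QX X)

/-- The action of a permutation of the columns. -/
def sx (τ : Equiv.Perm (X × ℕ)) (p : PX X) : PX X :=
  ⟨fun x i => p.1 (τ⁻¹ (x, i)).1 (τ⁻¹ (x, i)).2, by
    refine (p.2.image τ).subset ?_
    rintro ⟨x, i⟩ h
    exact ⟨τ⁻¹ (x, i), h, by simp⟩⟩

theorem sx_app (τ : Equiv.Perm (X × ℕ)) (p : PX X) (x : X) (i : ℕ) :
    (sx τ p).1 x i = p.1 (τ⁻¹ (x, i)).1 (τ⁻¹ (x, i)).2 := rfl

theorem sx_at (τ : Equiv.Perm (X × ℕ)) (p : PX X) (c : X × ℕ) :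
    (sx τ p).1 (τ c).1 (τ c).2 = p.1 c.1 c.2 := by
  rw [sx_app]
  have h : τ⁻¹ ((τ c).1, (τ c).2) = c := by
    rw [Prod.mk.eta, perm_inv_self]
  rw [h]

theorem sx_mul (σ τ : Equiv.Perm (X × ℕ)) (p : PX X) : sx (σ * τ) p = sx σ (sx τ p) := by
  refine FP.ext' fun x i => ?_
  rw [sx_app, sx_app, sx_app, mul_inv_rev, Equiv.Perm.mul_apply]

theorem sx_one (p : PX X) : sx 1 p = p := by
  refine FP.ext' fun x i => ?_
  rw [sx_app, inv_one]
  rfl

theorem sx_le {τ : Equiv.Perm (X × ℕ)} {p q : PX X} (h : p ≤ q) : sx τ p ≤ sx τ q :=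
  fun _ _ => h _ _

/-- The action as a homomorphism to the automorphisms. -/
def acX : Equiv.Perm (X × ℕ) →* (PX X ≃o PX X) where
  toFun τ :=
    { toFun := sx τ
      invFun := sx τ⁻¹
      left_inv := fun p => by rw [← sx_mul, inv_mul_cancel, sx_one]
      right_inv := fun p => by rw [← sx_mul, mul_inv_cancel, sx_one]
      map_rel_iff' := by
        intro p q
        constructor
        · intro h
          have h1 := sx_le (τ := τ⁻¹) (show sx τ p ≤ sx τ q from h)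
          rwa [← sx_mul, ← sx_mul, inv_mul_cancel, sx_one, sx_one] at h1
        · exact fun h => sx_le h }
  map_one' := RelIso.ext fun p => sx_one p
  map_mul' σ τ := RelIso.ext fun p => sx_mul σ τ p

theorem acX_app (τ : Equiv.Perm (X × ℕ)) (p : PX X) : acX τ p = sx τ p := rfl

theorem acX_top (τ : Equiv.Perm (X × ℕ)) : acX τ (⊤ : PX X) = ⊤ := by
  refine FP.ext' fun k i => ?_
  rfl

/-! ### The group -/

variable {Γ : Type} [Group Γ] [MulAction Γ X]

variable (X Γ) in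
/-- The group of the pairs of an element of `Γ` and a compatible permutation of the columns. -/
def GG : Subgroup (Γ × Equiv.Perm (X × ℕ)) where
  carrier := {g | ∀ c, (g.2 c).1 = g.1 • c.1}
  one_mem' := fun c => (one_smul Γ c.1).symm
  mul_mem' := by
    intro g h hg hh c
    change (g.2 (h.2 c)).1 = (g.1 * h.1) • c.1
    rw [hg, hh, mul_smul]
  inv_mem' := by
    intro g hg c
    change (g.2⁻¹ c).1 = g.1⁻¹ • c.1
    have h1 := hg (g.2⁻¹ c)
    rw [perm_self_inv] at h1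
    rw [h1, inv_smul_smul]

theorem gg_fst (g : GG X Γ) (c : X × ℕ) : (g.1.2 c).1 = g.1.1 • c.1 := g.2 c

variable (Γ) in
/-- A normal filter of subgroups, given by a basis. -/
structure NFil where
  /-- the basis -/
  F : Set (Subgroup Γ)
  ne : F.Nonempty
  conj : ∀ H ∈ F, ∀ g : Γ, ∃ K ∈ F, ∀ k ∈ K, g⁻¹ * k * g ∈ H
  dir : ∀ H ∈ F, ∀ K ∈ F, ∃ L ∈ F, L ≤ H ∧ L ≤ K

/-- The subgroup given by a subgroup of `Γ` and a finite set of columns. -/
def Hx (H : Subgroup Γ) (e : Finset (X × ℕ)) : Subgroup (GG X Γ) where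
  carrier := {g | g.1.1 ∈ H ∧ ∀ c ∈ e, g.1.2 c = c}
  one_mem' := ⟨H.one_mem, fun _ _ => rfl⟩
  mul_mem' := by
    intro g h hg hh
    refine ⟨H.mul_mem hg.1 hh.1, fun c hc => ?_⟩
    change g.1.2 (h.1.2 c) = c
    rw [hh.2 c hc, hg.2 c hc]
  inv_mem' := by
    intro g hg
    refine ⟨H.inv_mem hg.1, fun c hc => ?_⟩
    change g.1.2⁻¹ c = c
    rw [Equiv.Perm.inv_eq_iff_eq]
    exact (hg.2 c hc).symm

theorem mem_Hx {H : Subgroup Γ} {e : Finset (X × ℕ)} {g : GG X Γ} :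
    g ∈ Hx H e ↔ g.1.1 ∈ H ∧ ∀ c ∈ e, g.1.2 c = c := Iff.rfl

theorem Hx_mono {H K : Subgroup Γ} {e f : Finset (X × ℕ)} (h : H ≤ K) (he : f ⊆ e) :
    Hx H e ≤ (Hx K f : Subgroup (GG X Γ)) := fun _ hg => ⟨h hg.1, fun c hc => hg.2 c (he hc)⟩

open Classical in
variable (X) in
/-- The symmetric system. -/
noncomputable def SX (N : NFil Γ) : Sys (PX X) where
  G := GG X Γ
  grp := inferInstance
  ac := acX.comp ((MonoidHom.snd Γ (Equiv.Perm (X × ℕ))).comp (GG X Γ).subtype)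
  top g := acX_top _
  F := {L | ∃ H ∈ N.F, ∃ e, Hx H e = L}
  ne := by
    obtain ⟨H, hH⟩ := N.ne
    exact ⟨_, H, hH, ∅, rfl⟩
  conj := by
    rintro _ ⟨H, hH, e, rfl⟩ g
    obtain ⟨K, hK, h1⟩ := N.conj H hH g.1.1
    refine ⟨_, ⟨K, hK, e.image g.1.2, rfl⟩, fun k hk => ⟨h1 _ hk.1, fun c hc => ?_⟩⟩
    change g.1.2⁻¹ (k.1.2 (g.1.2 c)) = c
    rw [hk.2 _ (Finset.mem_image_of_mem _ hc), perm_inv_self]
  dir := by
    rintro _ ⟨H, hH, e, rfl⟩ _ ⟨K, hK, f, rfl⟩
    obtain ⟨L, hL, h1, h2⟩ := N.dir H hH K hK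
    exact ⟨_, ⟨L, hL, e ∪ f, rfl⟩, Hx_mono h1 Finset.subset_union_left,
      Hx_mono h2 Finset.subset_union_right⟩

variable {N : NFil Γ}

theorem SX_ac (g : GG X Γ) (p : PX X) : (SX X N).ac g p = sx g.1.2 p := rfl

/-- The action on names. -/
abbrev axg (g : GG X Γ) (x : PName (PX X)) : PName (PX X) := act (acX g.1.2) x

/-! ### Extending partial maps of columns -/

theorem exists_gg (γ : Γ) {s : Set (X × ℕ)} (hs : s.Finite) {f : X × ℕ → X × ℕ}
    (hf : Set.InjOn f s) (hk : ∀ c ∈ s, (f c).1 = γ • c.1) :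
    ∃ g : GG X Γ, g.1.1 = γ ∧ ∀ c ∈ s, g.1.2 c = f c := by
  have h : ∀ x, ∃ τ : Equiv.Perm ℕ, ∀ i, (x, i) ∈ s → τ i = (f (x, i)).2 := by
    intro x
    obtain ⟨τ, hτ⟩ := ext_perm (s := {i | (x, i) ∈ s}) (f := fun i => (f (x, i)).2)
      (hs.preimage (fun a _ b _ h => (Prod.ext_iff.1 h).2)) (by
        intro i hi j hj hij
        have h1 : f (x, i) = f (x, j) := Prod.ext ((hk _ hi).trans (hk _ hj).symm) hij
        exact (Prod.ext_iff.1 (hf hi hj h1)).2)
    exact ⟨τ, hτ⟩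
  choose σ hσ using h
  let τ : Equiv.Perm (X × ℕ) :=
    { toFun := fun c => (γ • c.1, σ c.1 c.2)
      invFun := fun c => (γ⁻¹ • c.1, (σ (γ⁻¹ • c.1)).symm c.2)
      left_inv := fun c => by
        simp
      right_inv := fun c => by
        simp }
  refine ⟨⟨(γ, τ), fun c => rfl⟩, rfl, ?_⟩
  rintro ⟨x, i⟩ hc
  exact Prod.ext (hk _ hc).symm (hσ x i hc)

/-- An automorphism over `γ` that fixes a finite set of columns of fixed points of `γ`. -/
theorem exists_gg_fix (γ : Γ) (e : Finset (X × ℕ)) (h : ∀ c ∈ e, γ • c.1 = c.1) :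
    ∃ g : GG X Γ, g.1.1 = γ ∧ ∀ c ∈ e, g.1.2 c = c := by
  obtain ⟨g, h1, h2⟩ := exists_gg γ (s := (e : Set (X × ℕ))) e.finite_toSet (f := fun c => c)
    (fun _ _ _ _ h => h) (fun c hc => (h c hc).symm)
  exact ⟨g, h1, fun c hc => h2 c hc⟩

variable (Γ) in
/-- The automorphism given by permutations of the columns of every point. -/
def emb (σ : X → Equiv.Perm ℕ) : GG X Γ :=
  ⟨(1, { toFun := fun c => (c.1, σ c.1 c.2)
         invFun := fun c => (c.1, (σ c.1).symm c.2)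
         left_inv := fun c => by simp
         right_inv := fun c => by simp }), fun c => (one_smul Γ c.1).symm⟩

theorem emb_app (σ : X → Equiv.Perm ℕ) (c : X × ℕ) : (emb Γ σ).1.2 c = im σ c := rfl

theorem sx_emb (σ : X → Equiv.Perm ℕ) (p : PX X) : sx (emb Γ σ).1.2 p = FP.sm σ p := by
  refine FP.ext' fun x i => ?_
  rfl

/-! ### Supports -/

/-- Forced equality by all conditions. -/
def Eqv (x y : PName (PX X)) : Prop := ∀ p, Feq x y p

theorem Eqv.refl (x : PName (PX X)) : Eqv x x := fun _ => Feq.refl _ _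

theorem Eqv.symm {x y : PName (PX X)} (h : Eqv x y) : Eqv y x := fun p => (h p).symm

theorem Eqv.trans {x y z : PName (PX X)} (h : Eqv x y) (h' : Eqv y z) : Eqv x z :=
  fun p => feq_trans (h p) (h' p)

theorem Eqv.act {x y : PName (PX X)} (h : Eqv x y) (g : GG X Γ) : Eqv (axg g x) (axg g y) := by
  intro p
  have h1 := feq_act' (e := acX g.1.2) (h ((acX g.1.2)⁻¹ p))
  rwa [app_inv] at h1

theorem Eqv.opN {x y x' y' : PName (PX X)} (h : Eqv x x') (h' : Eqv y y') :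
    Eqv (opN x y) (opN x' y') := fun p => feq_opN (h p) (h' p)

theorem Eqv.val {x y : PName (PX X)} (h : Eqv x y) {π : Pkg (PX X)} (hx : x ∈ π.N)
    (hy : y ∈ π.N) : π.val x = π.val y := (π.val_eq_iff hx hy).2 ⟨0, h _⟩

theorem axg_mul (g h : GG X Γ) (x : PName (PX X)) : axg (g * h) x = axg g (axg h x) := by
  change act (acX (g.1.2 * h.1.2)) x = _
  rw [acX.map_mul, act_mul]

theorem axg_one (x : PName (PX X)) : axg (1 : GG X Γ) x = x := by
  change act (acX (1 : Equiv.Perm (X × ℕ))) x = _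
  rw [acX.map_one, act_one]

variable (Γ) in
/-- The name `x` is fixed by the permutations of the columns of each point that fix `e`. -/
def FxC (e : Finset (X × ℕ)) (x : PName (PX X)) : Prop :=
  ∀ σ ∈ Hs X e, Eqv (axg (emb Γ σ) x) x

/-- The name `x` is fixed by the automorphisms over elements of `H` that fix `e`. -/
def FxX (H : Subgroup Γ) (e : Finset (X × ℕ)) (x : PName (PX X)) : Prop :=
  ∀ g : GG X Γ, g.1.1 ∈ H → (∀ c ∈ e, g.1.2 c = c) → Eqv (axg g x) x

theorem FxX.fxC {H : Subgroup Γ} {e : Finset (X × ℕ)} {x : PName (PX X)} (h : FxX H e x) :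
    FxC Γ e x := fun σ hσ => h (emb Γ σ) H.one_mem (fun c hc => mem_Hs'.1 hσ c hc)

theorem FxC.mono {e f : Finset (X × ℕ)} {x : PName (PX X)} (h : FxC Γ e x) (he : e ⊆ f) :
    FxC Γ f x := fun σ hσ => h σ (Hs_mono he hσ)

theorem FxX.mono {H K : Subgroup Γ} {e f : Finset (X × ℕ)} {x : PName (PX X)} (h : FxX H e x)
    (hK : K ≤ H) (he : e ⊆ f) : FxX K f x :=
  fun g hg h1 => h g (hK hg) fun c hc => h1 c (he hc)

theorem sym_iffX {x : PName (PX X)} : (SX X N).Sym x ↔ ∃ H ∈ N.F, ∃ e, FxX H e x := by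
  constructor
  · rintro ⟨_, ⟨H, hH, e, rfl⟩, h⟩
    exact ⟨H, hH, e, fun g hg h1 p => h g ⟨hg, h1⟩ p⟩
  · rintro ⟨H, hH, e, h⟩
    exact ⟨_, ⟨H, hH, e, rfl⟩, fun g hg p => h g hg.1 hg.2 p⟩

/-- Homogeneity: what is forced about names with support `e` is forced by the restriction
to `e`. -/
theorem frc_resX {n : ℕ} {R : Set ZFSet.{0} → (Fin n → ZFSet.{0}) → Prop} {h : UD R}
    {x : Fin n → PName (PX X)} {e : Finset (X × ℕ)} (hx : ∀ i, FxC Γ e (x i)) {p : PX X}
    (hf : (SX X N).Frc h x p) : (SX X N).Frc h x (res e p) := by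
  refine Sys.frc_dense fun q hq => ?_
  obtain ⟨σ, hσ, -, r, hr, hr'⟩ := exists_common e p q ∅ (by
    intro k i hk
    have h1 := hq k i
    rwa [res_pos hk] at h1)
  have h1 := (Sys.frc_act (S := SX X N) (emb Γ σ)).2 hf
  have h2 := (Sys.frc_congr (S := SX X N) (h := h) (y := x)
    (fun i => hx i σ hσ ((SX X N).ac (emb Γ σ) p))).1 h1
  rw [SX_ac, sx_emb] at h2
  exact ⟨r, hr, h2.mono hr'⟩

/-- Automorphisms that fix `e` fix conditions with support `e`. -/
theorem sx_res {e : Finset (X × ℕ)} {τ : Equiv.Perm (X × ℕ)} (hτ : ∀ c ∈ e, τ c = c) (p : PX X) :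
    sx τ (res e p) = res e p := by
  refine FP.ext' fun x i => ?_
  rw [sx_app]
  by_cases h : (x, i) ∈ e
  · have h1 : τ⁻¹ (x, i) = (x, i) := by
      rw [Equiv.Perm.inv_eq_iff_eq]
      exact (hτ _ h).symm
    rw [h1]
  · have h1 : τ⁻¹ (x, i) ∉ e := by
      intro h2
      have h3 := hτ _ h2
      rw [perm_self_inv] at h3
      rw [← h3] at h2
      exact h h2
    rw [res_neg h]
    exact res_neg h1

/-- Transfer of a true statement along an automorphism. -/
theorem transfer {π : Pkg (PX X)} (hcl : (SX X N).Cld π) {n : ℕ}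
    {R : Set ZFSet.{0} → (Fin n → ZFSet.{0}) → Prop} (h : UD R)
    {x x' : Fin n → PName (PX X)} {e : Finset (X × ℕ)} (hx : ∀ i, FxC Γ e (x i))
    (hxN : ∀ i, x i ∈ π.N ∧ (SX X N).HS (x i)) (hxN' : ∀ i, x' i ∈ π.N ∧ (SX X N).HS (x' i))
    (g : GG X Γ) (hg : ∀ c ∈ e, g.1.2 c = c) (hxx' : ∀ i, Eqv (axg g (x i)) (x' i))
    (hR : R ((SX X N).Ms π) (π.val ∘ x)) : R ((SX X N).Ms π) (π.val ∘ x') := by
  obtain ⟨k, hk⟩ := (Sys.frc_iff h hcl hxN).1 hR
  have h1 := frc_resX hx hk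
  have h2 := (Sys.frc_act (S := SX X N) g).2 h1
  have h3 := (Sys.frc_congr (S := SX X N) (h := h) (y := x')
    (fun i => hxx' i ((SX X N).ac g (res e (π.g k))))).1 h2
  rw [SX_ac, sx_res hg] at h3
  exact (Sys.frc_iff h hcl hxN').2 ⟨k, h3.mono (le_res _ _)⟩

end Pool.Agent.Q211.PA
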